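import Mathlib

namespace Pool.Agent.H.MP_37af32_pr.A

open MeasureTheory Filter Topology

abbrev A := Bool × Bool

noncomputable def coin : Measure Bool := (PMF.uniformOfFintype Bool).toMeasure

instance : IsProbabilityMeasure coin := by unfold coin; infer_instance

noncomputable def P : Measure (ℤ → Bool) := Measure.infinitePi (fun _ => coin)

instance : IsProbabilityMeasure P := by unfold P; infer_instance

def O (x : ℤ → A) (i : ℤ) : Bool := ((x i).1 && !(x i).2) || ((x (i - 1)).1 && (x (i - 1)).2)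

def Z (x : ℤ → A) (ω : ℤ → Bool) : ℤ → A := fun i => (O x i, ω i)

theorem mO : Measurable O := by
  apply measurable_pi_lambda
  intro i
  have h : Measurable (fun x : ℤ → A => (x i, x (i - 1))) :=
    (measurable_pi_apply i).prodMk (measurable_pi_apply (i - 1))
  exact (measurable_of_countable (fun p : A × A => (p.1.1 && !p.1.2) || (p.2.1 && p.2.2))).comp h

theorem mZ : Measurable (fun p : (ℤ → A) × (ℤ → Bool) => Z p.1 p.2) := by
  apply measurable_pi_lambda
  intro i
  exact (((measurable_pi_apply i).comp mO).comp measurable_fst).prodMk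
    ((measurable_pi_apply i).comp measurable_snd)

theorem mZ' (x : ℤ → A) : Measurable (Z x) := mZ.comp measurable_prodMk_left

noncomputable def K (x : ℤ → A) : Measure (ℤ → A) := P.map (Z x)

instance (x : ℤ → A) : IsProbabilityMeasure (K x) :=
  Measure.isProbabilityMeasure_map (mZ' x).aemeasurable

theorem mK : Measurable K := by
  apply Measure.measurable_of_measurable_coe
  intro s hs
  simp only [K, Measure.map_apply (mZ' _) hs]
  exact measurable_measure_prodMk_left (mZ hs)

noncomputable def F (μ : Measure (ℤ → A)) : Measure (ℤ → A) := μ.bind K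

theorem probF (μ : Measure (ℤ → A)) [IsProbabilityMeasure μ] : IsProbabilityMeasure (F μ) :=
  isProbabilityMeasure_bind mK.aemeasurable (Eventually.of_forall fun _ => inferInstance)

theorem probI (μ : Measure (ℤ → A)) [IsProbabilityMeasure μ] (t : ℕ) :
    IsProbabilityMeasure (F^[t] μ) := by
  induction t with
  | zero => simpa
  | succ t ih => rw [Function.iterate_succ_apply']; exact probF _

def S (T : Set (ℤ → Bool)) (D : Finset ℤ) (c : ℤ → Bool) : Set (ℤ → A) :=
  {y | (fun i => (y i).1) ∈ T ∧ ∀ i ∈ D, (y i).2 = c i}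

theorem mC (D : Finset ℤ) (c : ℤ → Bool) : MeasurableSet {ω : ℤ → Bool | ∀ i ∈ D, ω i = c i} := by
  have : {ω : ℤ → Bool | ∀ i ∈ D, ω i = c i} = Set.pi D (fun i => {c i}) := by
    ext; simp
  rw [this]
  exact MeasurableSet.pi (Set.to_countable _) fun _ _ => MeasurableSet.of_discrete

theorem mS {T : Set (ℤ → Bool)} (hT : MeasurableSet T) (D : Finset ℤ) (c : ℤ → Bool) :
    MeasurableSet (S T D c) := by
  have h1 : Measurable (fun (y : ℤ → A) i => (y i).1) := by fun_prop
  have h2 : Measurable (fun (y : ℤ → A) i => (y i).2) := by fun_prop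
  exact (h1 hT).inter (h2 (mC D c))

theorem PC (D : Finset ℤ) (c : ℤ → Bool) :
    P {ω : ℤ → Bool | ∀ i ∈ D, ω i = c i} = 2⁻¹ ^ D.card := by
  have : {ω : ℤ → Bool | ∀ i ∈ D, ω i = c i} = Set.pi D (fun i => {c i}) := by
    ext; simp
  rw [this, P, Measure.infinitePi_pi _ (fun _ _ => MeasurableSet.of_discrete)]
  rw [Finset.prod_congr rfl (g := fun _ => 2⁻¹), Finset.prod_const]
  intro i _
  simp [coin]

noncomputable def q (μ : Measure (ℤ → A)) (T : Set (ℤ → Bool)) : ℝ := μ.real (O ⁻¹' T)

theorem FS (μ : Measure (ℤ → A)) {T : Set (ℤ → Bool)} (hT : MeasurableSet T) (D : Finset ℤ)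
    (c : ℤ → Bool) : (F μ).real (S T D c) = q μ T * 2⁻¹ ^ D.card := by
  have h : ∀ x, K x (S T D c) = (O ⁻¹' T).indicator (fun _ => 2⁻¹ ^ D.card) x := by
    intro x
    rw [K, Measure.map_apply (mZ' _) (mS hT D c)]
    by_cases e : x ∈ O ⁻¹' T
    · rw [Set.indicator_of_mem e, ← PC D c]
      congr 1
      ext ω
      have : O x ∈ T := e
      simp [S, Z, this]
    · rw [Set.indicator_of_notMem e]
      have : ¬ O x ∈ T := e
      simp [S, Z, this]
  rw [measureReal_def, F, Measure.bind_apply (mS hT D c) mK.aemeasurable]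
  simp only [h]
  rw [lintegral_indicator_const (mO hT), q, measureReal_def]
  simp [mul_comm]

theorem rec4 (μ : Measure (ℤ → A)) [IsProbabilityMeasure μ] {T T1 T2 T3 T4 : Set (ℤ → Bool)}
    (h1 : MeasurableSet T1) (h2 : MeasurableSet T2) (h3 : MeasurableSet T3)
    (h4 : MeasurableSet T4) (i j : ℤ) (hij : i ≠ j)
    (h : ∀ y : ℤ → A, O y ∈ T → (fun i => (y i).1) ∈
      (if (y i).2 then (if (y j).2 then T1 else T2) else (if (y j).2 then T3 else T4))) :
    q (F μ) T ≤ (q μ T1 + q μ T2 + q μ T3 + q μ T4) / 4 := by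
  haveI := probF μ
  let c : Bool → Bool → ℤ → Bool := fun s r k => if k = i then s else r
  have sub : O ⁻¹' T ⊆ ((S T1 {i, j} (c true true) ∪ S T2 {i, j} (c true false)) ∪
      S T3 {i, j} (c false true)) ∪ S T4 {i, j} (c false false) := by
    intro y hy
    have := h y hy
    cases e1 : (y i).2 <;> cases e2 : (y j).2 <;> simp [e1, e2] at this <;>
      simp [S, c, this, e1, e2, hij.symm]
  have a1 := FS μ h1 {i, j} (c true true)
  have a2 := FS μ h2 {i, j} (c true false)
  have a3 := FS μ h3 {i, j} (c false true)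
  have a4 := FS μ h4 {i, j} (c false false)
  rw [Finset.card_pair hij] at a1 a2 a3 a4
  have b0 := measureReal_mono (μ := F μ) sub
  have b1 := measureReal_union_le (μ := F μ) ((S T1 {i, j} (c true true) ∪
    S T2 {i, j} (c true false)) ∪ S T3 {i, j} (c false true)) (S T4 {i, j} (c false false))
  have b2 := measureReal_union_le (μ := F μ) (S T1 {i, j} (c true true) ∪
    S T2 {i, j} (c true false)) (S T3 {i, j} (c false true))
  have b3 := measureReal_union_le (μ := F μ) (S T1 {i, j} (c true true))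
    (S T2 {i, j} (c true false))
  unfold q at *
  linarith

def Emp (a : ℤ) (k : ℕ) : Set (ℤ → Bool) := {o | ∀ j, a ≤ j → j < a + k → o j = false}

theorem mE (a : ℤ) (k : ℕ) : MeasurableSet (Emp a k) := by
  have : Emp a k = Set.pi (Set.Ico a (a + k)) (fun _ => {false}) := by
    ext; simp [Emp]
  rw [this]
  exact MeasurableSet.pi (Set.to_countable _) fun _ _ => MeasurableSet.of_discrete

theorem key (y : ℤ → A) (a : ℤ) (k : ℕ) : O y ∈ Emp a (k + 1) ↔ (fun i => (y i).1) ∈
    (if (y (a - 1)).2 then (if (y (a + k)).2 then Emp (a - 1) (k + 1) else Emp (a - 1) (k + 2))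
      else (if (y (a + k)).2 then Emp a k else Emp a (k + 1))) := by
  have e : O y ∈ Emp a (k + 1) ↔ ((y (a - 1)).2 = true → (y (a - 1)).1 = false) ∧
      ((y (a + k)).2 = false → (y (a + k)).1 = false) ∧
      ∀ j, a ≤ j → j < a + k → (y j).1 = false := by
    simp only [Emp, O, Set.mem_ofPred_eq]
    constructor
    · intro h
      refine ⟨fun e => ?_, fun e => ?_, fun j h1 h2 => ?_⟩
      · have := h a le_rfl (by push_cast; omega)
        simp [e] at this
        exact this.2
      · have := h (a + k) (by omega) (by push_cast; omega)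
        simp [e] at this
        exact this.1
      · have b1 := h j h1 (by push_cast; omega)
        have b2 := h (j + 1) (by omega) (by push_cast; omega)
        simp only [add_sub_cancel_right] at b2
        cases e1 : (y j).1 <;> cases e2 : (y j).2 <;> simp_all
    · rintro ⟨h1, h2, h3⟩ j a1 a2
      push_cast at a2
      have b1 : ((y j).1 && !(y j).2) = false := by
        by_cases e : j = a + k
        · subst e
          cases e2 : (y (a + k)).2 <;> simp_all
        · simp [h3 j a1 (by omega)]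
      have b2 : ((y (j - 1)).1 && (y (j - 1)).2) = false := by
        by_cases e : j = a
        · subst e
          cases e2 : (y (j - 1)).2 <;> simp_all
        · simp [h3 (j - 1) (by omega) (by omega)]
      rw [b1, b2]; rfl
  rw [e]
  cases e1 : (y (a - 1)).2 <;> cases e2 : (y (a + k)).2 <;>
    simp only [Emp, Set.mem_ofPred_eq, Bool.false_eq_true, if_false, if_true, reduceCtorEq,
      false_imp_iff, true_and, forall_const] <;> push_cast
  · constructor
    · rintro ⟨h1, h2⟩ j a1 a2
      by_cases e : j = a + k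
      · rw [e, h1]
      · exact h2 j a1 (by omega)
    · intro h
      exact ⟨h _ (by omega) (by omega), fun j a1 a2 => h j a1 (by omega)⟩
  · constructor
    · rintro ⟨h0, h1, h2⟩ j a1 a2
      by_cases e : j = a + k
      · rw [e, h1]
      · by_cases e' : j = a - 1
        · rw [e', h0]
        · exact h2 j (by omega) (by omega)
    · intro h
      exact ⟨h _ (by omega) (by omega), h _ (by omega) (by omega),
        fun j a1 a2 => h j (by omega) (by omega)⟩
  · constructor
    · rintro ⟨h0, h2⟩ j a1 a2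
      by_cases e' : j = a - 1
      · rw [e', h0]
      · exact h2 j (by omega) (by omega)
    · intro h
      exact ⟨h _ (by omega) (by omega), fun j a1 a2 => h j (by omega) (by omega)⟩

theorem recE (μ : Measure (ℤ → A)) [IsProbabilityMeasure μ] (a : ℤ) (k : ℕ) :
    q (F μ) (Emp a (k + 1)) ≤ (q μ (Emp (a - 1) (k + 1)) + q μ (Emp (a - 1) (k + 2)) +
      q μ (Emp a k) + q μ (Emp a (k + 1))) / 4 :=
  rec4 μ (mE _ _) (mE _ _) (mE _ _) (mE _ _) (a - 1) (a + k) (by omega)
    fun y hy => (key y a k).mp hy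

theorem recN (μ : Measure (ℤ → A)) [IsProbabilityMeasure μ] (a : ℤ) (k : ℕ) :
    q (F μ) (Emp a (k + 1))ᶜ ≤ (q μ (Emp (a - 1) (k + 1))ᶜ + q μ (Emp (a - 1) (k + 2))ᶜ +
      q μ (Emp a k)ᶜ + q μ (Emp a (k + 1))ᶜ) / 4 :=
  rec4 μ (mE _ _).compl (mE _ _).compl (mE _ _).compl (mE _ _).compl (a - 1) (a + k) (by omega)
    fun y hy => by
      have := mt (key y a k).mpr hy
      cases e1 : (y (a - 1)).2 <;> cases e2 : (y (a + k)).2 <;> simpa [e1, e2] using this

theorem q1 (μ : Measure (ℤ → A)) [IsProbabilityMeasure μ] (T : Set (ℤ → Bool)) : q μ T ≤ 1 :=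
  measureReal_le_one

theorem q0 (μ : Measure (ℤ → A)) (T : Set (ℤ → Bool)) : 0 ≤ q μ T := measureReal_nonneg

theorem qc (μ : Measure (ℤ → A)) [IsProbabilityMeasure μ] {T : Set (ℤ → Bool)}
    (hT : MeasurableSet T) : q μ Tᶜ = 1 - q μ T := by
  unfold q
  rw [Set.preimage_compl, probReal_compl_eq_one_sub (mO hT)]

theorem qm (μ : Measure (ℤ → A)) [IsProbabilityMeasure μ] {T U : Set (ℤ → Bool)}
    (h : T ⊆ U) : q μ T ≤ q μ U := measureReal_mono (Set.preimage_mono h)

theorem upper (μ : Measure (ℤ → A)) [IsProbabilityMeasure μ] (M : ℕ) (hM : 2 ≤ M) (t : ℕ) :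
    ∀ (a : ℤ) (k : ℕ), k ≤ M → q (F^[t] μ) (Emp a k)ᶜ ≤
      k / M + (1 - 2 / (M : ℝ) ^ 2) ^ t * (k * (M - k)) := by
  have M2 : (2 : ℝ) ≤ M := by exact_mod_cast hM
  have top : ∀ t a, q (F^[t] μ) (Emp a M)ᶜ ≤
      M / M + (1 - 2 / (M : ℝ) ^ 2) ^ t * (M * (M - M)) := by
    intro t a
    haveI := probI μ t
    rw [div_self (by linarith), sub_self]
    simpa using q1 _ _
  have bot : ∀ t a, q (F^[t] μ) (Emp a 0)ᶜ ≤
      (0 : ℕ) / M + (1 - 2 / (M : ℝ) ^ 2) ^ t * ((0 : ℕ) * (M - (0 : ℕ))) := by
    intro t a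
    have : (Emp a 0)ᶜ = ∅ := by
      ext o
      simp only [Emp, Set.mem_compl_iff, Set.mem_ofPred_eq, Set.mem_empty_iff_false, iff_false,
        not_not]
      intro j h1 h2
      omega
    simp [this, q]
  induction t with
  | zero =>
    intro a k hk
    rcases hk.eq_or_lt with rfl | hk
    · exact top 0 a
    cases k with
    | zero => exact bot 0 a
    | succ k =>
      have h1 := q1 μ (Emp a (k + 1))ᶜ
      have h2 : ((k + 1 : ℕ) : ℝ) + 1 ≤ M := by exact_mod_cast hk
      have h3 : (0 : ℝ) ≤ ((k + 1 : ℕ) : ℝ) / M := by positivity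
      have h4 : (1 : ℝ) ≤ ((k + 1 : ℕ) : ℝ) := by exact_mod_cast Nat.le_add_left 1 k
      simp only [Function.iterate_zero, id, pow_zero, one_mul]
      nlinarith
  | succ t ih =>
    intro a k hk
    rcases hk.eq_or_lt with rfl | hk
    · exact top _ a
    cases k with
    | zero => exact bot _ a
    | succ k =>
      haveI := probI μ t
      rw [Function.iterate_succ_apply']
      refine (recN _ a k).trans ?_
      have a1 := ih (a - 1) (k + 1) (by omega)
      have a2 := ih (a - 1) (k + 2) (by omega)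
      have a3 := ih a k (by omega)
      have a4 := ih a (k + 1) (by omega)
      have c0 : 0 ≤ 1 - 2 / (M : ℝ) ^ 2 := by
        rw [sub_nonneg, div_le_one (by positivity)]
        nlinarith
      have c1 := pow_nonneg c0 t
      have c2 : 2 / (M : ℝ) ^ 2 * ((k + 1) * (M - (k + 1))) ≤ 1 / 2 := by
        rw [div_mul_eq_mul_div, div_le_iff₀ (by positivity)]
        nlinarith [sq_nonneg ((M : ℝ) - 2 * (k + 1))]
      have c3 := mul_le_mul_of_nonneg_left c2 c1
      rw [pow_succ]
      push_cast at a1 a2 a3 a4 ⊢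
      set c := (1 - 2 / (M : ℝ) ^ 2) ^ t
      set d := 2 / (M : ℝ) ^ 2
      simp only [div_eq_mul_inv] at a1 a2 a3 a4 ⊢
      nlinarith

theorem small (a : ℤ) (k : ℕ) (ε : ℝ) (hε : 0 < ε) : ∃ T, ∀ t ≥ T, ∀ (μ : Measure (ℤ → A))
    [IsProbabilityMeasure μ], q (F^[t] μ) (Emp a k)ᶜ ≤ ε := by
  obtain ⟨M0, hM0⟩ := exists_nat_ge (2 * k / ε)
  set M := M0 + k + 2 with hM
  have M2 : (2 : ℝ) ≤ M := by exact_mod_cast (by omega : 2 ≤ M)
  have h1 : (k : ℝ) / M ≤ ε / 2 := by
    rw [div_le_iff₀ hε] at hM0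
    rw [div_le_iff₀ (by linarith)]
    have : (M0 : ℝ) ≤ M := by exact_mod_cast (by omega : M0 ≤ M)
    nlinarith
  have c0 : 0 ≤ 1 - 2 / (M : ℝ) ^ 2 := by
    rw [sub_nonneg, div_le_one (by positivity)]
    nlinarith
  have c1 : 1 - 2 / (M : ℝ) ^ 2 < 1 := by
    have : 0 < 2 / (M : ℝ) ^ 2 := by positivity
    linarith
  have h2 := (tendsto_pow_atTop_nhds_zero_of_lt_one c0 c1).mul_const ((k : ℝ) * (M - k))
  rw [zero_mul] at h2
  obtain ⟨T, hT⟩ := eventually_atTop.mp (h2.eventually (ge_mem_nhds (half_pos hε)))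
  refine ⟨T, fun t ht μ _ => ?_⟩
  have := upper μ M (by omega) t a k (by omega)
  linarith [hT t ht]

theorem lower (t : ℕ) : ∀ (a : ℤ) (k : ℕ),
    q (F^[t] (Measure.dirac fun _ => (true, false))) (Emp a k) ≤ (1 - 1 / ((t : ℝ) + 1)) ^ k := by
  induction t with
  | zero =>
    intro a k
    cases k with
    | zero => simpa using q1 _ _
    | succ k =>
      have : (fun _ => (true, false)) ∉ O ⁻¹' Emp a (k + 1) := by
        intro h
        have := h a le_rfl (by push_cast; omega)
        simp [O] at this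
      simp [q, measureReal_def, Measure.dirac_apply' _ (mO (mE a (k + 1))), this]
  | succ t ih =>
    intro a k
    cases k with
    | zero =>
      haveI := probI (Measure.dirac fun _ : ℤ => (true, false)) (t + 1)
      rw [pow_zero]
      exact q1 _ _
    | succ k =>
      haveI := probI (Measure.dirac fun _ : ℤ => (true, false)) t
      rw [Function.iterate_succ_apply']
      refine (recE _ a k).trans ?_
      have a1 := ih (a - 1) (k + 1)
      have a2 := ih (a - 1) (k + 2)
      have a3 := ih a k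
      have a4 := ih a (k + 1)
      have t0 : (0 : ℝ) ≤ t := Nat.cast_nonneg t
      have r0 : 0 ≤ 1 - 1 / ((t : ℝ) + 1) := by
        rw [sub_nonneg, div_le_one (by linarith)]
        linarith
      have r1 : 1 - 1 / ((t : ℝ) + 1) ≤ 1 - 1 / (((t + 1 : ℕ) : ℝ) + 1) := by
        push_cast
        have := one_div_le_one_div_of_le (by linarith : (0 : ℝ) < t + 1)
          (by linarith : (t : ℝ) + 1 ≤ t + 1 + 1)
        linarith
      have r2 : (1 + (1 - 1 / ((t : ℝ) + 1))) ^ 2 / 4 ≤ 1 - 1 / (((t + 1 : ℕ) : ℝ) + 1) := by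
        push_cast
        rw [← sub_nonneg]
        have : 1 - 1 / ((t : ℝ) + 1 + 1) - (1 + (1 - 1 / ((t : ℝ) + 1))) ^ 2 / 4 =
            (3 * t + 2) / (4 * (t + 1) ^ 2 * (t + 2)) := by
          field_simp
          ring
        rw [this]
        positivity
      have r3 := pow_le_pow_left₀ r0 r1 k
      have r4 := mul_le_mul r3 r2 (by positivity) ((pow_nonneg r0 k).trans r3)
      rw [pow_succ] at a1 a4 ⊢
      rw [pow_add] at a2
      set r := 1 - 1 / ((t : ℝ) + 1)
      nlinarith

end Pool.Agent.H.MP_37af32_pr.A
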